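import Mathlib
import Pool.Agent.R206.Horse.TropZ

namespace Pool.Agent.Results.MP_9297ae_an.NonPeriodic

open Filter

/-- positive solution; `x n` is the term with index `n - 2` of the problem. -/
def IsPosSol (B : ℝ) (x : ℕ → ℝ) : Prop :=
  0 < x 0 ∧ 0 < x 1 ∧ 0 < x 2 ∧ ∀ n, x (n + 3) = x n / (B * x (n + 2) + x n)

/-- a positive solution converging neither to the equilibrium `1 / (B + 1)` nor to any periodic
sequence -/
def Wild (B : ℝ) (x : ℕ → ℝ) : Prop :=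
  IsPosSol B x ∧ (¬ Tendsto x atTop (nhds (1 / (B + 1)))) ∧
    ∀ p : ℕ → ℝ, (∃ k : ℕ, 1 ≤ k ∧ ∀ n, p (n + k) = p n) →
      ¬ Tendsto (fun n => x n - p n) atTop (nhds 0)

theorem large {B : ℝ} (hB : Real.exp 1000000 ≤ B) : ∃ x : ℕ → ℝ, Wild B x := by
  have hB0 : 0 < B := lt_of_lt_of_le (Real.exp_pos _) hB
  have hg : 1000000 ≤ Real.log B := (Real.le_log_iff_exp_le hB0).2 hB
  obtain ⟨x, h1, h2, h4⟩ := Pool.Agent.R206.Horse.Z.exists_nonperiodic hg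
  rw [Real.exp_log hB0] at h2
  refine ⟨x, ⟨h1 0, h1 1, h1 2, h2⟩, ?_, ?_⟩
  · intro hcon
    refine h4 (fun _ => 1 / (B + 1)) 1 one_pos (fun _ => rfl) ?_
    have := hcon.sub_const (1 / (B + 1))
    rwa [sub_self] at this
  · rintro p ⟨k, hk, hp⟩
    exact h4 p k hk hp

/-- Affirmative answer to Q1; every sufficiently large `B` works. -/
theorem result :
    (∃ B : ℝ, 0 < B ∧ ∃ x : ℕ → ℝ, Wild B x) ∧
    ∀ B : ℝ, Real.exp 1000000 ≤ B → ∃ x : ℕ → ℝ, Wild B x :=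
  ⟨⟨Real.exp 1000000, Real.exp_pos _, large le_rfl⟩, fun _ hB => large hB⟩

end Pool.Agent.Results.MP_9297ae_an.NonPeriodic
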